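import Pool.Agent.helper77.MC.Spec

/-!
# Row P2 of project MC (MP_7e34bc_co)
-/

set_option autoImplicit false

namespace Pool.Agent.helper77.MC

open Finset Numbering

private theorem P2_one (β : Type) [Fintype β] [DecidableEq β] (A : Finset (Finset β)) :
    ∑ f : Numbering β, ∑ J ∈ A, (if f ∈ prefixed J then ((Fintype.card β).choose #J : ℝ) else 0) =
      (#A : ℝ) * ((Fintype.card β).factorial : ℝ) := by
  rw [sum_comm]
  have h : ∀ J ∈ A, ∑ f : Numbering β,
      (if f ∈ prefixed J then ((Fintype.card β).choose #J : ℝ) else 0) =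
        ((Fintype.card β).factorial : ℝ) := by
    intro J _
    rw [← sum_filter, sum_const, nsmul_eq_mul, filter_mem_eq_inter, univ_inter, card_prefixed]
    have h2 := Nat.choose_mul_factorial_mul_factorial (card_le_univ J)
    rw [← h2]
    push_cast
    ring
  rw [sum_congr rfl h, sum_const, nsmul_eq_mul]

theorem P2 (h1 : FA_stmt) (h2 : GD_stmt) (h3 : BA_stmt) : P2_stmt := by
  classical
  intro β _ y c₁ c₂ m w hy hc1 hc2 hw hg hg2
  obtain ⟨g, hgd⟩ : ∃ g : ℕ → ℝ, g = fun j => ((Fintype.card β).choose j : ℝ) := ⟨_, rfl⟩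
  have hfam : ∀ A : Finset (Finset β), ∑ f : Numbering β, ∑ J ∈ A,
      (if f ∈ prefixed J then g #J else 0) = (#A : ℝ) * ((Fintype.card β).factorial : ℝ) := by
    intro A
    rw [hgd]
    exact P2_one β A
  have hg' : ∀ j ≤ m + 1, g j ≤ w := by rw [hgd]; exact hg
  have hg2' : ∀ j ≤ m, ∀ a, 1 ≤ a → a + 1 ≤ j → g j + (g a + g (j - a)) ≤ 2 * w := by
    rw [hgd]; exact hg2
  have hdis : ∀ t ∈ fam y (c₁ + c₂) m, ∀ t' ∈ fam y (c₁ + c₂) m, t ≠ t' →
      Disjoint (prefixed t) (prefixed t') := by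
    intro t ht t' ht' hne
    obtain ⟨-, hanti, -⟩ := h1 β y (c₁ + c₂) (c₁ + c₂) m m hy (by linarith)
    exact disjoint_prefixed_prefixed (fun h => hne (hanti t ht t' ht' h))
      (fun h => hne (hanti t' ht' t ht h).symm)
  obtain ⟨F, hF⟩ : ∃ F : Numbering β → ℝ, F = fun f =>
      (∑ J ∈ fam y c₁ (m + 1), (if f ∈ prefixed J then g #J else 0)) +
      (∑ J ∈ fam y c₂ (m + 1), (if f ∈ prefixed J then g #J else 0)) +
      ∑ J ∈ fam y (c₁ + c₂) m, (if f ∈ prefixed J then g #J else 0) := ⟨_, rfl⟩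
  have hsum : ∑ f, F f = ((#(fam y c₁ (m + 1)) : ℝ) + #(fam y c₂ (m + 1)) +
      #(fam y (c₁ + c₂) m)) * ((Fintype.card β).factorial : ℝ) := by
    rw [hF]
    simp only [sum_add_distrib, hfam]
    ring
  obtain ⟨H, hH⟩ : ∃ H : Finset (Numbering β), H = (fam y (c₁ + c₂) m).biUnion prefixed :=
    ⟨_, rfl⟩
  have hHs : ∑ f ∈ H, F f ≤ 2 * w * #H := by
    rw [hH, sum_biUnion hdis, card_biUnion hdis]
    push_cast
    rw [mul_sum]
    refine sum_le_sum fun t ht => ?_
    rw [hF]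
    exact h3 β y c₁ c₂ m w g hy hc1 hc2 hw hg' hg2' t ht
  have hHc : ∑ f ∈ Hᶜ, F f ≤ 2 * w * #Hᶜ := by
    have h4 : ∀ f ∈ Hᶜ, F f ≤ 2 * w := by
      intro f hf
      rw [mem_compl, hH, mem_biUnion] at hf
      push Not at hf
      have h5 := h2 β y c₁ (m + 1) w g hy hc1 hw hg' f
      have h6 := h2 β y c₂ (m + 1) w g hy hc2 hw hg' f
      have h7 : ∑ J ∈ fam y (c₁ + c₂) m, (if f ∈ prefixed J then g #J else 0) = 0 :=
        sum_eq_zero fun J hJ => if_neg (hf J hJ)
      rw [hF]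
      show _ + _ + _ ≤ _
      rw [h7]
      linarith
    calc ∑ f ∈ Hᶜ, F f ≤ ∑ f ∈ Hᶜ, 2 * w := sum_le_sum h4
      _ = 2 * w * #Hᶜ := by rw [sum_const, nsmul_eq_mul]; ring
  have htot : ∑ f, F f ≤ 2 * w * ((Fintype.card β).factorial : ℝ) := by
    rw [← sum_add_sum_compl H]
    have hcard : (#H : ℝ) + #Hᶜ = ((Fintype.card β).factorial : ℝ) := by
      rw [← Fintype.card_numbering (X := β)]
      exact_mod_cast card_add_card_compl H
    rw [← hcard]
    linarith
  have hq : (0 : ℝ) < ((Fintype.card β).factorial : ℝ) := by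
    exact_mod_cast Nat.factorial_pos _
  rw [hsum] at htot
  exact le_of_mul_le_mul_right htot hq

end Pool.Agent.helper77.MC
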